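import Pool.Agent.Lib.MP_182bbb_co.TT.Iface

/-!
# CLEAN: cleaning the set of triples
-/

open Finset

namespace MP_182bbb_co.TT.H14

open MP_182bbb_co.H5 MP_182bbb_co.TT

section

variable {V : Type} [Fintype V]

open Classical in
lemma cnt3_sum (P : V → V → V → Prop) :
    (cnt3 P : ℝ) = ∑ x, ∑ y, ∑ w, (if P x y w then (1 : ℝ) else 0) := by
  unfold cnt3
  rw [card_filter]
  push_cast
  rw [← univ_product_univ, sum_product]
  apply sum_congr rfl
  intro x _
  rw [← univ_product_univ, sum_product]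

open Classical in
/-- if for all values of two coordinates at most `t` values of the third are possible -/
lemma sum3_le (P : V → V → V → Prop) (t : ℝ)
    (h : ∀ x y, ∑ w, (if P x y w then (1 : ℝ) else 0) ≤ t * Fintype.card V) :
    ∑ x, ∑ y, ∑ w, (if P x y w then (1 : ℝ) else 0) ≤ t * (Fintype.card V : ℝ) ^ 3 := by
  calc ∑ x, ∑ y, ∑ w, (if P x y w then (1 : ℝ) else 0)
      ≤ ∑ x : V, ∑ y : V, t * Fintype.card V := sum_le_sum fun x _ => sum_le_sum fun y _ => h x y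
    _ = t * (Fintype.card V : ℝ) ^ 3 := by
      simp only [sum_const, card_univ, nsmul_eq_mul]
      ring

open Classical in
lemma sum_ind_le (P Q : V → Prop) (t : ℝ) (ht : 0 ≤ t) (h : ∀ w, P w → Q w)
    (h2 : (∃ w, P w) → (((univ : Finset V).filter Q).card : ℝ) ≤ t) :
    ∑ w, (if P w then (1 : ℝ) else 0) ≤ t := by
  by_cases hex : ∃ w, P w
  · refine le_trans ?_ (h2 hex)
    rw [card_filter]
    push_cast
    apply sum_le_sum
    intro w _
    by_cases hw : P w
    · rw [if_pos hw, if_pos (h w hw)]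
    · rw [if_neg hw]
      split_ifs <;> norm_num
  · rw [sum_eq_zero]
    · exact ht
    · intro w _
      rw [if_neg (fun hw => hex ⟨w, hw⟩)]

open Classical in
lemma cnt3_le3 (P Q : V → V → V → Prop) (t : ℝ) (ht : 0 ≤ t)
    (h : ∀ x y w, P x y w → Q x y w)
    (h2 : ∀ x y, (∃ w, P x y w) →
      (((univ : Finset V).filter (Q x y)).card : ℝ) ≤ t * Fintype.card V) :
    (cnt3 P : ℝ) ≤ t * (Fintype.card V : ℝ) ^ 3 := by
  rw [cnt3_sum]
  apply sum3_le
  intro x y
  exact sum_ind_le _ (Q x y) _ (mul_nonneg ht (Nat.cast_nonneg _)) (h x y) (h2 x y)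

open Classical in
lemma cnt3_rot (P : V → V → V → Prop) :
    (cnt3 P : ℝ) = cnt3 (fun y w x => P x y w) := by
  rw [cnt3_sum, cnt3_sum]
  rw [sum_comm]
  apply sum_congr rfl; intro x _
  rw [sum_comm]

open Classical in
lemma cnt3_sw (P : V → V → V → Prop) :
    (cnt3 P : ℝ) = cnt3 (fun x w y => P x y w) := by
  rw [cnt3_sum, cnt3_sum]
  apply sum_congr rfl; intro x _
  rw [sum_comm]

open Classical in
lemma cnt3_split (P G B1 B2 : V → V → V → Prop) (B3 B4 : V → V → V → V → Prop) (Z : Finset V)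
    (h : ∀ x y w, P x y w → G x y w ∨ B1 x y w ∨ B2 x y w ∨ (∃ z ∈ Z, B3 z x y w) ∨
      (∃ z ∈ Z, B4 z x y w)) :
    (cnt3 P : ℝ) ≤ cnt3 G + ((cnt3 B1 : ℝ) + ((cnt3 B2 : ℝ) +
      (∑ z ∈ Z, (cnt3 (B3 z) : ℝ) + ∑ z ∈ Z, (cnt3 (B4 z) : ℝ)))) := by
  have e0 : ∀ x y w, (if P x y w then (1 : ℝ) else 0) ≤ (if G x y w then (1 : ℝ) else 0) +
      ((if B1 x y w then (1 : ℝ) else 0) + ((if B2 x y w then (1 : ℝ) else 0) +
      (∑ z ∈ Z, (if B3 z x y w then (1 : ℝ) else 0) +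
        ∑ z ∈ Z, (if B4 z x y w then (1 : ℝ) else 0)))) := by
    intro x y w
    have p1 : (0 : ℝ) ≤ (if G x y w then (1 : ℝ) else 0) := by split_ifs <;> norm_num
    have p2 : (0 : ℝ) ≤ (if B1 x y w then (1 : ℝ) else 0) := by split_ifs <;> norm_num
    have p3 : (0 : ℝ) ≤ (if B2 x y w then (1 : ℝ) else 0) := by split_ifs <;> norm_num
    have p4' : ∀ z ∈ Z, (0 : ℝ) ≤ (if B3 z x y w then (1 : ℝ) else 0) := by
      intro z _; split_ifs <;> norm_num
    have p5' : ∀ z ∈ Z, (0 : ℝ) ≤ (if B4 z x y w then (1 : ℝ) else 0) := by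
      intro z _; split_ifs <;> norm_num
    have p4 := sum_nonneg p4'
    have p5 := sum_nonneg p5'
    by_cases hP : P x y w
    · rw [if_pos hP]
      rcases h x y w hP with q | q | q | ⟨z, hz, q⟩ | ⟨z, hz, q⟩
      · rw [if_pos q]; linarith
      · rw [if_pos q]; linarith
      · rw [if_pos q]; linarith
      · have := single_le_sum p4' hz
        rw [if_pos q] at this
        linarith
      · have := single_le_sum p5' hz
        rw [if_pos q] at this
        linarith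
    · rw [if_neg hP]; linarith
  have c3 : ∀ B : V → V → V → V → Prop, ∑ z ∈ Z, (cnt3 (B z) : ℝ) = ∑ x, ∑ y, ∑ w, ∑ z ∈ Z,
      (if B z x y w then (1 : ℝ) else 0) := by
    intro B
    simp only [cnt3_sum]
    rw [sum_comm]
    apply sum_congr rfl; intro x _
    rw [sum_comm]
    apply sum_congr rfl; intro y _
    rw [sum_comm]
  rw [c3, c3, cnt3_sum P, cnt3_sum G, cnt3_sum B1, cnt3_sum B2]
  calc ∑ x, ∑ y, ∑ w, (if P x y w then (1 : ℝ) else 0)
      ≤ ∑ x, ∑ y, ∑ w, ((if G x y w then (1 : ℝ) else 0) +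
      ((if B1 x y w then (1 : ℝ) else 0) + ((if B2 x y w then (1 : ℝ) else 0) +
      (∑ z ∈ Z, (if B3 z x y w then (1 : ℝ) else 0) +
        ∑ z ∈ Z, (if B4 z x y w then (1 : ℝ) else 0))))) :=
        sum_le_sum fun x _ => sum_le_sum fun x' _ => sum_le_sum fun y _ => e0 x x' y
    _ = _ := by
      rw [← sum_add_distrib, ← sum_add_distrib, ← sum_add_distrib, ← sum_add_distrib]
      apply sum_congr rfl; intro x _
      rw [← sum_add_distrib, ← sum_add_distrib, ← sum_add_distrib, ← sum_add_distrib]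
      apply sum_congr rfl; intro y _
      rw [← sum_add_distrib, ← sum_add_distrib, ← sum_add_distrib, ← sum_add_distrib]

end

open Classical in
theorem clean : CLEAN_S := by
  intro V _ _ A Tr Tr0 Z δ ρ η hρ hη hTr hcnt
  have e1 := cnt3_split Tr0 (fun x x' y => Tr0 x x' y ∧
    ρ * (Fintype.card V : ℝ) ≤ ((univ : Finset V).filter (fun u => Tr x u y)).card ∧
    ρ * (Fintype.card V : ℝ) ≤ ((univ : Finset V).filter (fun u => Tr u x' y)).card ∧
    (∀ z ∈ Z, η * (Fintype.card V : ℝ) ≤ (lk A z x).card) ∧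
    (∀ z ∈ Z, η * (Fintype.card V : ℝ) ≤ (lk A z y).card))
    (fun x x' y => Tr0 x x' y ∧
      (((univ : Finset V).filter (fun u => Tr x u y)).card : ℝ) < ρ * (Fintype.card V : ℝ))
    (fun x x' y => Tr0 x x' y ∧
      (((univ : Finset V).filter (fun u => Tr u x' y)).card : ℝ) < ρ * (Fintype.card V : ℝ))
    (fun z x x' y => z ∈ Z ∧ Tr0 x x' y ∧
      ((lk A z x).card : ℝ) < η * (Fintype.card V : ℝ))
    (fun z x x' y => z ∈ Z ∧ Tr0 x x' y ∧
      ((lk A z y).card : ℝ) < η * (Fintype.card V : ℝ)) Z (by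
    intro x x' y hT
    by_cases q1 : (((univ : Finset V).filter (fun u => Tr x u y)).card : ℝ) <
        ρ * (Fintype.card V : ℝ)
    · exact Or.inr (Or.inl ⟨hT, q1⟩)
    by_cases q2 : (((univ : Finset V).filter (fun u => Tr u x' y)).card : ℝ) <
        ρ * (Fintype.card V : ℝ)
    · exact Or.inr (Or.inr (Or.inl ⟨hT, q2⟩))
    by_cases q3 : ∃ z ∈ Z, ((lk A z x).card : ℝ) < η * (Fintype.card V : ℝ)
    · obtain ⟨z, hz, q⟩ := q3
      exact Or.inr (Or.inr (Or.inr (Or.inl ⟨z, hz, hz, hT, q⟩)))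
    by_cases q4 : ∃ z ∈ Z, ((lk A z y).card : ℝ) < η * (Fintype.card V : ℝ)
    · obtain ⟨z, hz, q⟩ := q4
      exact Or.inr (Or.inr (Or.inr (Or.inr ⟨z, hz, hz, hT, q⟩)))
    push Not at q1 q2 q3 q4
    exact Or.inl ⟨hT, q1, q2, q3, q4⟩)
  have f1 : (cnt3 (fun x x' y => Tr0 x x' y ∧
      (((univ : Finset V).filter (fun u => Tr x u y)).card : ℝ) < ρ * (Fintype.card V : ℝ)) : ℝ) ≤
      ρ * (Fintype.card V : ℝ) ^ 3 := by
    rw [cnt3_sw]
    apply cnt3_le3 _ (fun x y x' => Tr x x' y) ρ hρ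
    · intro x y x' h
      exact (hTr _ _ _ h.1).1
    · rintro x y ⟨x', h⟩
      exact h.2.le
  have f2 : (cnt3 (fun x x' y => Tr0 x x' y ∧
      (((univ : Finset V).filter (fun u => Tr u x' y)).card : ℝ) < ρ * (Fintype.card V : ℝ)) : ℝ) ≤
      ρ * (Fintype.card V : ℝ) ^ 3 := by
    rw [cnt3_rot]
    apply cnt3_le3 _ (fun x' y x => Tr x x' y) ρ hρ
    · intro x y x' h
      exact (hTr _ _ _ h.1).1
    · rintro x y ⟨x', h⟩
      exact h.2.le
  have f3 : ∀ z, (cnt3 (fun x x' y => z ∈ Z ∧ Tr0 x x' y ∧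
      ((lk A z x).card : ℝ) < η * (Fintype.card V : ℝ)) : ℝ) ≤ η * (Fintype.card V : ℝ) ^ 3 := by
    intro z
    apply cnt3_le3 _ (fun x _ y => y ∈ lk A z x) η hη
    · rintro x x' y ⟨hz, h, -⟩
      have := (hTr _ _ _ h).2 hz
      simp only [lk, mem_filter, mem_univ, true_and] at this ⊢
      rwa [rot x y z] at this
    · rintro x x' ⟨y, h⟩
      have := h.2.2.le
      refine le_trans (Nat.cast_le.2 (card_le_card ?_)) this
      intro w hw
      exact (@mem_filter _ _ (_) _ _).1 hw |>.2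
  have f4 : ∀ z, (cnt3 (fun x x' y => z ∈ Z ∧ Tr0 x x' y ∧
      ((lk A z y).card : ℝ) < η * (Fintype.card V : ℝ)) : ℝ) ≤ η * (Fintype.card V : ℝ) ^ 3 := by
    intro z
    rw [cnt3_rot]
    apply cnt3_le3 _ (fun _ y x => x ∈ lk A z y) η hη
    · rintro x' y x ⟨hz, h, -⟩
      have := (hTr _ _ _ h).2 hz
      simp only [lk, mem_filter, mem_univ, true_and] at this ⊢
      rw [rot x y z] at this
      rwa [swap23 z x y] at this
    · rintro x' y ⟨x, h⟩
      have := h.2.2.le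
      refine le_trans (Nat.cast_le.2 (card_le_card ?_)) this
      intro w hw
      exact (@mem_filter _ _ (_) _ _).1 hw |>.2
  have g3 := sum_le_sum (s := Z) fun z _ => f3 z
  have g4 := sum_le_sum (s := Z) fun z _ => f4 z
  rw [sum_const, nsmul_eq_mul] at g3 g4
  nlinarith [hcnt, e1, f1, f2, g3, g4]

end MP_182bbb_co.TT.H14
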