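import Pool.Agent.Lib.MP_182bbb_co.TT.Iface

/-!
# TRF: transfer of a kernel along the growth
-/

open Finset

namespace MP_182bbb_co.TT.H14

open MP_182bbb_co.H5 MP_182bbb_co.TT

section

variable {V : Type} [Fintype V] [DecidableEq V]

/-- the averaged kernel -/
noncomputable def avK (A : Finset (Finset V)) (K : V → V → V → V → ℝ) (u p q : V) : ℝ :=
  (∑ a ∈ lk A p q, K u a p q) / ((lk A p q).card : ℝ)

lemma avK_ker (A : Finset (Finset V)) (K : V → V → V → V → ℝ) (d : ℝ) (hd : 0 ≤ d)
    (h0 : ∀ u a p q, 0 ≤ K u a p q) (h1 : ∀ a p q, ∑ u, K u a p q ≤ d) : Ker d (avK A K) := by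
  constructor
  · intro u p q
    unfold avK
    exact div_nonneg (sum_nonneg fun a _ => h0 _ _ _ _) (Nat.cast_nonneg _)
  · intro p q
    unfold avK
    rw [← sum_div, sum_comm]
    rcases Nat.eq_zero_or_pos (lk A p q).card with h | h
    · rw [h]
      simpa using hd
    · have hpos : (0 : ℝ) < ((lk A p q).card : ℝ) := by exact_mod_cast h
      rw [div_le_iff₀ hpos]
      calc ∑ a ∈ lk A p q, ∑ u, K u a p q ≤ ∑ a ∈ lk A p q, d := sum_le_sum fun a _ => h1 _ _ _
        _ = d * ((lk A p q).card : ℝ) := by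
          rw [sum_const, nsmul_eq_mul]; ring

lemma stp_eq (A : Finset (Finset V)) (b : ℕ → ℕ) (m : ℕ) (F : (ℕ → V) → ℝ) (Rf : (ℕ → V) → ℝ)
    (K : V → V → V → V → ℝ) (v : ℕ) (φ : ℕ → V)
    (h : ∀ a, F (Function.update φ (m + 2) a) = Rf φ * K (φ v) a (φ (pA b m)) (φ (pB b m))) :
    stp A b m F φ = Rf φ * avK A K (φ v) (φ (pA b m)) (φ (pB b m)) := by
  unfold stp avK
  rw [← mul_div_assoc, mul_sum]
  congr 1
  exact sum_congr rfl fun a _ => h a

end

theorem trf (hT : TREE_S) (hR : ROOT0_S) (hG : GRB_S) : TRF_S := by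
  intro V _ _ A b in0 hdown m
  obtain ⟨g1, -, -, -, g5⟩ := hG V A b in0
  obtain ⟨hends, hpp, -, -, -, -⟩ := hT b
  obtain ⟨r1, -, -, r4, r5, -⟩ := hR b in0 hdown
  induction m with
  | zero =>
    intro i hi e he v hv d K hd hK
    have h0 : i = 0 := by omega
    subst h0
    refine ⟨K, hK, fun Rf _ _ φ0 => ?_⟩
    rw [r5 0 e he]
  | succ m ih =>
    intro i hi e he v hv d K hd hK
    rcases Nat.eq_or_lt_of_le hi with hi' | hi'
    · refine ⟨K, hK, fun Rf _ _ φ0 => ?_⟩
      rw [hi', r5 (m + 1) e he]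
    have him : i ≤ m := by omega
    by_cases hE : E0 in0 e
    · refine ⟨K, hK, fun Rf hRf hdep φ0 => ?_⟩
      rw [r4 i e hE]
      apply g5 i (m + 1) _ φ0 hi
      · intro φ
        exact mul_nonneg (hRf φ) (hK.1 _ _ _)
      · intro φ φ' h
        have e1 := h v hv
        have e2 := h (ends b e).1 (Or.inl (r1 e hE).1)
        have e3 := h (ends b e).2 (Or.inl (r1 e hE).2)
        simp only [e1, e2, e3, hdep φ φ' h]
    by_cases hle : e ≤ 2 * m
    · obtain ⟨K', hK', h⟩ := ih i him e hle v hv d K hd hK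
      refine ⟨K', hK', fun Rf hRf hdep φ0 => le_trans ?_ (h Rf hRf hdep φ0)⟩
      apply g5 m (m + 1) _ φ0 (by omega)
      · intro φ
        exact mul_nonneg (hRf φ) (hK.1 _ _ _)
      · intro φ φ' h'
        have hsub : ∀ x, (S0 in0 x ∨ x < i + 2) → (S0 in0 x ∨ x < m + 2) := by
          rintro x (hx | hx)
          · exact Or.inl hx
          · exact Or.inr (by omega)
        have e1 := h' v (hsub v hv)
        have e2 := h' (ends b e).1 (Or.inr (by have := (hends e).1; omega))
        have e3 := h' (ends b e).2 (Or.inr (by have := (hends e).2.1; omega))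
        have e4 := hdep φ φ' (fun x hx => h' x (hsub x hx))
        simp only [e1, e2, e3, e4]
    -- now `e` is `2m+1` or `2m+2`, a real triangle
    have hin : ¬ in0 m := by
      intro h
      apply hE
      right
      exact ⟨m, h, by omega⟩
    have hnot : ∀ x, (S0 in0 x ∨ x < i + 2) → x ≠ m + 2 := by
      rintro x (hx | hx) heq
      · rcases hx with hx | ⟨j, hj, hx⟩
        · omega
        · have : j = m := by omega
          rw [this] at hj
          exact hin hj
      · omega
    have hupd : ∀ (φ : ℕ → V) (a : V) (x : ℕ), x ≠ m + 2 → Function.update φ (m + 2) a x = φ x :=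
      fun φ a x hx => Function.update_of_ne hx _ _
    have hst : st in0 b i e = st in0 b i (bs b m) := by
      obtain ⟨e', rfl⟩ : ∃ e', e = e' + 1 := ⟨e - 1, by omega⟩
      rw [st]
      have : e' / 2 = m := by omega
      rw [this, if_neg]
      rintro (h | h)
      · omega
      · exact hin h
    have hgr : ∀ (F : (ℕ → V) → ℝ) φ0, gr A b in0 (m + 1) F φ0 = gr A b in0 m (stp A b m F) φ0 := by
      intro F φ0
      rw [gr, if_neg hin]
    have hpA := (hpp m).1
    have hpB := (hpp m).2.1
    rcases (by omega : e = 2 * m + 1 ∨ e = 2 * m + 2) with rfl | rfl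
    · have hK1 := avK_ker A (fun u a p _ => K u a p) d hd (fun u a p _ => hK.1 u a p)
        (fun a p _ => hK.2 a p)
      obtain ⟨K', hK', h⟩ := ih i him (bs b m) (bs_le b m) v hv d _ hd hK1
      refine ⟨K', hK', fun Rf hRf hdep φ0 => ?_⟩
      rw [hst, hgr]
      refine le_trans (le_of_eq ?_) (h Rf hRf hdep φ0)
      congr 1
      funext φ
      rw [stp_eq A b m _ Rf (fun u a p _ => K u a p) v φ ?_]
      · rfl
      · intro a
        have e4 : Rf (Function.update φ (m + 2) a) = Rf φ :=
          hdep _ _ (fun x hx => hupd φ a x (hnot x hx))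
        simp only [e4, ends_odd, Function.update_self, hupd φ a v (hnot v hv),
          hupd φ a (pA b m) (by omega)]
    · have hK1 := avK_ker A (fun u a _ q => K u a q) d hd (fun u a _ q => hK.1 u a q)
        (fun a _ q => hK.2 a q)
      obtain ⟨K', hK', h⟩ := ih i him (bs b m) (bs_le b m) v hv d _ hd hK1
      refine ⟨K', hK', fun Rf hRf hdep φ0 => ?_⟩
      rw [hst, hgr]
      refine le_trans (le_of_eq ?_) (h Rf hRf hdep φ0)
      congr 1
      funext φ
      rw [stp_eq A b m _ Rf (fun u a _ q => K u a q) v φ ?_]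
      · rfl
      · intro a
        have e4 : Rf (Function.update φ (m + 2) a) = Rf φ :=
          hdep _ _ (fun x hx => hupd φ a x (hnot x hx))
        simp only [e4, ends_even, Function.update_self, hupd φ a v (hnot v hv),
          hupd φ a (pB b m) (by omega)]

end MP_182bbb_co.TT.H14
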