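import Pool.Agent.Lib.MP_182bbb_co.TT.Iface

/-!
# TZERO: the subtree `inT N k b`
-/

open Finset

namespace MP_182bbb_co.TT.H14

open MP_182bbb_co.H5 MP_182bbb_co.TT

lemma sum_edges (f : ℕ → ℕ) (N : ℕ) :
    ∑ x ∈ range (2 * N + 1), f x = f 0 + ∑ i ∈ range N, (f (2 * i + 1) + f (2 * i + 2)) := by
  induction N with
  | zero => simp
  | succ n ih =>
    rw [show 2 * (n + 1) + 1 = (2 * n + 1) + 1 + 1 by ring, sum_range_succ, sum_range_succ, ih,
      sum_range_succ]
    ring

lemma sum_verts (w : ℕ → ℕ) (N : ℕ) :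
    ∑ v ∈ range (N + 2), w v = w 0 + w 1 + ∑ i ∈ range N, w (i + 2) := by
  induction N with
  | zero => simp [sum_range_succ]
  | succ n ih =>
    rw [show n + 1 + 2 = (n + 2) + 1 by ring, sum_range_succ, ih, sum_range_succ]
    ring

lemma E0_odd (P : ℕ → Prop) (i : ℕ) : E0 P (2 * i + 1) ↔ P i := by
  unfold E0
  constructor
  · rintro (h | ⟨j, hj, h | h⟩)
    · omega
    · have : i = j := by omega
      rwa [this]
    · omega
  · intro h
    exact Or.inr ⟨i, h, Or.inl rfl⟩

lemma E0_even (P : ℕ → Prop) (i : ℕ) : E0 P (2 * i + 2) ↔ P i := by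
  unfold E0
  constructor
  · rintro (h | ⟨j, hj, h | h⟩)
    · omega
    · omega
    · have : i = j := by omega
      rwa [this]
  · intro h
    exact Or.inr ⟨i, h, Or.inr rfl⟩

lemma edge_cases (e : ℕ) : e = 0 ∨ ∃ i, e = 2 * i + 1 ∨ e = 2 * i + 2 := by
  rcases Nat.eq_zero_or_pos e with h | h
  · exact Or.inl h
  · right
    rcases Nat.even_or_odd e with ⟨m, hm⟩ | ⟨m, hm⟩
    · exact ⟨m - 1, Or.inr (by omega)⟩
    · exact ⟨m, Or.inl (by omega)⟩

open Classical in
lemma key_i (P A B C : Prop) (h1 : C → P) (h2 : ¬ (A ∧ B)) :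
    ((if P ∧ ¬ (C ∨ A) then 1 else 0) + (if P ∧ ¬ (C ∨ B) then 1 else 0)) +
      (if P ∧ (C ∨ A ∨ B) then 1 else 0) + (if C then 1 else 0) = 2 * (if P then 1 else 0) := by
  by_cases a1 : P <;> by_cases a2 : C <;> by_cases a3 : A <;> by_cases a4 : B <;> simp_all

open Classical in
lemma key_0 (A B : Prop) (h : ¬ (A ∧ B)) :
    (if ¬ (A ∨ B) then 1 else 0) + ((if A then 1 else 0) + (if B then 1 else 0)) = 1 := by
  by_cases a1 : A <;> by_cases a2 : B <;> simp_all

open Classical in
lemma key_1 (P A B C : Prop) (h3 : P) (hC : ¬ C) (h : ¬ (A ∧ B)) :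
    (if A then 1 else 0) + (if B then 1 else 0) + (if C then 1 else 0) ≤
      (if P ∧ (C ∨ A ∨ B) then 1 else 0) := by
  by_cases a1 : A <;> by_cases a2 : B <;> simp_all

open Classical in
lemma key_2 (X A B : Prop) (hX : X → ¬ (A ∨ B)) (h : ¬ (A ∧ B)) :
    (if X then 1 else 0) + ((if A then 1 else 0) + (if B then 1 else 0)) ≤ 1 := by
  by_cases a1 : A <;> by_cases a2 : B <;> by_cases a3 : X <;> simp_all

open Classical in
lemma key_3 (X Y C Q : Prop) (h1 : C → ¬ X ∧ ¬ Y ∧ Q) (h2 : X → ¬ Y ∧ Q) (h3 : Y → Q) :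
    ((if X then 1 else 0) + (if Y then 1 else 0)) + (if C then 1 else 0) ≤
      (if Q then 1 else 0) := by
  by_cases a1 : X <;> by_cases a2 : Y <;> by_cases a3 : C <;> by_cases a4 : Q <;> simp_all

open Classical in
theorem tzero (hT : TREE_S) : TZERO_S := by
  intro N k b c J hN hb1 hk hkN hc hJ
  obtain ⟨hends, hpp, hcol2, hcolne, hcol3, huniq⟩ := hT b
  have hJr : ∀ v ∈ J, v < k + 2 ∧ col b v = c := by
    intro v hv
    have := hJ hv
    simpa [VC] using this
  have hbs0 : ∀ i, pA b i = (ends b (bs b i)).1 := fun i => rfl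
  have hbs1 : ∀ i, pB b i = (ends b (bs b i)).2 := fun i => rfl
  have hin : ∀ i, i < k → inT N k b i := fun i hi => ⟨by omega, Or.inl hi⟩
  have hE0k : ∀ e, e ≤ 2 * k → E0 (inT N k b) e := by
    intro e he
    rcases edge_cases e with h | ⟨i, h | h⟩
    · exact Or.inl h
    · rw [h, E0_odd]; exact hin i (by omega)
    · rw [h, E0_even]; exact hin i (by omega)
  have hS0k : ∀ v, v < k + 2 → S0 (inT N k b) v := by
    intro v hv
    by_cases h : v ≤ 1
    · exact Or.inl h
    · exact Or.inr ⟨v - 2, hin _ (by omega), by omega⟩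
  have hjind : ∀ e, ¬ ((ends b e).1 ∈ J ∧ (ends b e).2 ∈ J) := by
    rintro e ⟨h1, h2⟩
    exact hcolne e ((hJr _ h1).2.trans (hJr _ h2).2.symm)
  have hXE : ∀ e, XT k b J e → E0 (inT N k b) e ∧ ¬ hitJ b J e := by
    rintro e ⟨h1, -, h3⟩
    exact ⟨hE0k e h1, h3⟩
  have hTree : Tree0 N b (inT N k b) J (XT k b J) := by
    refine ⟨?_, fun i hi => hi.1, ?_, hXE, ?_, hjind⟩
    · rintro i hi ⟨-, h | ⟨h, -⟩⟩
      · exact hE0k _ (by have := bs_le b i; omega)
      · exact hE0k _ h
    · rintro i hi hni ⟨h1, h2, -⟩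
      exact hni ⟨hi, Or.inr ⟨h1, h2⟩⟩
    · intro v hv
      exact hS0k v (hJr v hv).1
  have hk0 : k ≤ k0 N (inT N k b) := by
    have : (range k) ⊆ (range N).filter (inT N k b) := by
      intro i hi
      rw [mem_filter, mem_range]
      rw [mem_range] at hi
      exact ⟨by omega, hin i hi⟩
    have h := card_le_card this
    rw [card_range] at h
    unfold k0
    convert h
  have hc0 : col b 0 = 0 := by rw [col]
  have hc1 : col b 1 = 1 := by rw [col]
  have hbs00 : bs b 0 = 0 := by have := bs_le b 0; omega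
  have hpA0 : pA b 0 = 0 := by rw [hbs0, hbs00, ends_zero]
  have hpB0 : pB b 0 = 1 := by rw [hbs1, hbs00, ends_zero]
  have hc2 : col b 2 = 2 := by
    have := hcol3 0
    rw [hpA0, hpB0, hc0, hc1] at this
    simpa using this
  have hk02 : 2 ≤ k0 N (inT N k b) := by
    have : ({0, 1} : Finset ℕ) ⊆ (range N).filter (inT N k b) := by
      intro i hi
      rw [mem_insert, mem_singleton] at hi
      rw [mem_filter, mem_range]
      rcases hi with rfl | rfl
      · exact ⟨by omega, hin 0 (by omega)⟩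
      · refine ⟨by omega, by omega, Or.inr ?_⟩
        have hb : bs b 1 = 0 := by unfold bs; rw [hb1]; simp
        rw [hb]
        refine ⟨by omega, ?_⟩
        rw [hbs0, hbs1, hb, ends_zero, hc0, hc1]
    have h := card_le_card this
    rw [card_pair (by norm_num)] at h
    unfold k0
    convert h
  have hJN : J ⊆ range (N + 2) := by
    intro v hv
    rw [mem_range]
    have := (hJr v hv).1
    omega
  have hJcard : J.card = (if 0 ∈ J then 1 else 0) + (if 1 ∈ J then 1 else 0) +
      ∑ i ∈ range N, (if i + 2 ∈ J then 1 else 0) := by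
    rw [← sum_verts (fun v => if v ∈ J then 1 else 0) N, ← card_filter]
    congr 1
    ext v
    rw [mem_filter]
    exact ⟨fun h => ⟨hJN h, h⟩, fun h => h.2⟩
  have h01 : ¬ (0 ∈ J ∧ 1 ∈ J) := by
    have := hjind 0
    rwa [ends_zero] at this
  have hhit0 : hitJ b J 0 ↔ (0 ∈ J ∨ 1 ∈ J) := by
    unfold hitJ
    rw [ends_zero]
  have hhito : ∀ i, hitJ b J (2 * i + 1) ↔ (i + 2 ∈ J ∨ pA b i ∈ J) := by
    intro i
    unfold hitJ
    rw [ends_odd]
  have hhite : ∀ i, hitJ b J (2 * i + 2) ↔ (i + 2 ∈ J ∨ pB b i ∈ J) := by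
    intro i
    unfold hitJ
    rw [ends_even]
  have hinJ : ∀ i, i + 2 ∈ J → inT N k b i := fun i hi => hin i (by have := (hJr _ hi).1; omega)
  have hbase : ∀ i, ¬ (pA b i ∈ J ∧ pB b i ∈ J) := fun i => hjind (bs b i)
  refine ⟨hTree, hk0, hk02, ?_, ?_, ?_, ?_, ?_, ?_⟩
  · -- 4
    have e1 : ((range (2 * N + 1)).filter (fun e => E0 (inT N k b) e ∧ ¬ hitJ b J e)).card =
        (if ¬ (0 ∈ J ∨ 1 ∈ J) then 1 else 0) + ∑ i ∈ range N,
          ((if inT N k b i ∧ ¬ (i + 2 ∈ J ∨ pA b i ∈ J) then 1 else 0) +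
          (if inT N k b i ∧ ¬ (i + 2 ∈ J ∨ pB b i ∈ J) then 1 else 0)) := by
      rw [card_filter, sum_edges]
      congr 1
      · have : (E0 (inT N k b) 0 ∧ ¬ hitJ b J 0) ↔ ¬ (0 ∈ J ∨ 1 ∈ J) := by
          rw [hhit0]
          exact ⟨fun h => h.2, fun h => ⟨Or.inl rfl, h⟩⟩
        simp only [this]
      · apply sum_congr rfl
        intro i _
        simp only [E0_odd, E0_even, hhito, hhite]
    have e2 : tJ N b (inT N k b) J = ∑ i ∈ range N,
        (if inT N k b i ∧ (i + 2 ∈ J ∨ pA b i ∈ J ∨ pB b i ∈ J) then 1 else 0) := by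
      unfold tJ
      rw [card_filter]
    have e3 : k0 N (inT N k b) = ∑ i ∈ range N, (if inT N k b i then 1 else 0) := by
      unfold k0
      rw [card_filter]
    rw [e1, e2, e3, hJcard, mul_sum]
    have key : ∑ i ∈ range N,
          ((if inT N k b i ∧ ¬ (i + 2 ∈ J ∨ pA b i ∈ J) then 1 else 0) +
          (if inT N k b i ∧ ¬ (i + 2 ∈ J ∨ pB b i ∈ J) then 1 else 0)) +
        ∑ i ∈ range N,
          (if inT N k b i ∧ (i + 2 ∈ J ∨ pA b i ∈ J ∨ pB b i ∈ J) then 1 else 0) +
        ∑ i ∈ range N, (if i + 2 ∈ J then 1 else 0) =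
        ∑ i ∈ range N, 2 * (if inT N k b i then 1 else 0) := by
      rw [← sum_add_distrib, ← sum_add_distrib]
      apply sum_congr rfl
      intro i _
      convert key_i _ _ _ _ (hinJ i) (hbase i)
    have h0 : (if ¬ (0 ∈ J ∨ 1 ∈ J) then 1 else 0) + ((if 0 ∈ J then 1 else 0) +
        (if 1 ∈ J then 1 else 0)) = 1 := by
      convert key_0 _ _ h01
    omega
  · -- 5
    have e2 : tJ N b (inT N k b) J = ∑ i ∈ range N,
        (if inT N k b i ∧ (i + 2 ∈ J ∨ pA b i ∈ J ∨ pB b i ∈ J) then 1 else 0) := by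
      unfold tJ
      rw [card_filter]
    rw [e2, hJcard]
    have h0N : 0 ∈ range N := by rw [mem_range]; omega
    rw [← add_sum_erase _ _ h0N, ← add_sum_erase (range N)
      (fun i => if inT N k b i ∧ (i + 2 ∈ J ∨ pA b i ∈ J ∨ pB b i ∈ J) then 1 else 0) h0N]
    have h2J : (2 : ℕ) ∉ J := by
      intro h
      have := (hJr 2 h).2
      omega
    have hmain : ∑ i ∈ (range N).erase 0, (if i + 2 ∈ J then 1 else 0) ≤
        ∑ i ∈ (range N).erase 0,
          (if inT N k b i ∧ (i + 2 ∈ J ∨ pA b i ∈ J ∨ pB b i ∈ J) then 1 else 0) := by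
      apply sum_le_sum
      intro i _
      have h1 := hinJ i
      by_cases a2 : i + 2 ∈ J
      · simp [a2, h1 a2]
      · simp [a2]
    have hz : (if 0 ∈ J then 1 else 0) + (if 1 ∈ J then 1 else 0) + (if 0 + 2 ∈ J then 1 else 0) ≤
        (if inT N k b 0 ∧ (0 + 2 ∈ J ∨ pA b 0 ∈ J ∨ pB b 0 ∈ J) then 1 else 0) := by
      rw [hpA0, hpB0]
      convert key_1 _ _ _ _ (hin 0 (by omega)) h2J h01
    omega
  · -- 6
    intro hJV
    have : (range k) ⊆ (range N).filter
        (fun i => inT N k b i ∧ (i + 2 ∈ J ∨ pA b i ∈ J ∨ pB b i ∈ J)) := by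
      intro i hi
      rw [mem_range] at hi
      rw [mem_filter, mem_range]
      refine ⟨by omega, hin i hi, ?_⟩
      have hm : ∀ v, v < k + 2 → col b v = c → v ∈ J := by
        intro v hv hcv
        rw [hJV]
        simp [VC, hv, hcv]
      have h3 := hcol3 i
      have hne : col b (pA b i) ≠ col b (pB b i) := hcolne (bs b i)
      have hA := hcol2 (pA b i)
      have hB := hcol2 (pB b i)
      have hC := hcol2 (i + 2)
      have hpp' := hpp i
      by_cases q1 : col b (i + 2) = c
      · exact Or.inl (hm _ (by omega) q1)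
      by_cases q2 : col b (pA b i) = c
      · exact Or.inr (Or.inl (hm _ (by omega) q2))
      · exact Or.inr (Or.inr (hm _ (by omega) (by omega)))
    have h := card_le_card this
    rw [card_range] at h
    unfold tJ
    convert h
  · -- 7
    have e1 : ((range (2 * N + 1)).filter (fun e => XT k b J e)).card =
        (if XT k b J 0 then 1 else 0) + ∑ i ∈ range N,
          ((if XT k b J (2 * i + 1) then 1 else 0) + (if XT k b J (2 * i + 2) then 1 else 0)) := by
      rw [card_filter, sum_edges]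
    rw [e1, hJcard]
    have hle : ∀ i ∈ range N,
        ((if XT k b J (2 * i + 1) then 1 else 0) + (if XT k b J (2 * i + 2) then 1 else 0)) +
          (if i + 2 ∈ J then 1 else 0) ≤ (if 0 < i ∧ i < k then 1 else 0) := by
      intro i _
      have hXo : XT k b J (2 * i + 1) ↔ 2 * i + 1 ≤ 2 * k ∧ col b (i + 2) + col b (pA b i) = 1 ∧
          ¬ (i + 2 ∈ J ∨ pA b i ∈ J) := by
        unfold XT
        rw [hhito, ends_odd]
      have hXe : XT k b J (2 * i + 2) ↔ 2 * i + 2 ≤ 2 * k ∧ col b (i + 2) + col b (pB b i) = 1 ∧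
          ¬ (i + 2 ∈ J ∨ pB b i ∈ J) := by
        unfold XT
        rw [hhite, ends_even]
      have h3 := hcol3 i
      have hne : col b (pA b i) ≠ col b (pB b i) := hcolne (bs b i)
      have hJi := hJr (i + 2)
      have h20 : i = 0 → col b (i + 2) = 2 := by
        intro h; rw [h]; simpa using hc2
      have k1 : i + 2 ∈ J → ¬ XT k b J (2 * i + 1) ∧ ¬ XT k b J (2 * i + 2) ∧ (0 < i ∧ i < k) := by
        intro q1
        have := hJi q1
        have h20' : ¬ i = 0 := fun h => by have := h20 h; omega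
        exact ⟨fun h => (hXo.1 h).2.2 (Or.inl q1), fun h => (hXe.1 h).2.2 (Or.inl q1), by omega,
          by omega⟩
      have k2 : XT k b J (2 * i + 1) → ¬ XT k b J (2 * i + 2) ∧ (0 < i ∧ i < k) := by
        intro q2
        have a1 := (hXo.1 q2)
        have h20' : ¬ i = 0 := fun h => by have := h20 h; omega
        refine ⟨fun q3 => ?_, by omega, by omega⟩
        have a2 := (hXe.1 q3).2.1
        omega
      have k3 : XT k b J (2 * i + 2) → (0 < i ∧ i < k) := by
        intro q3
        have a2 := (hXe.1 q3)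
        have h20' : ¬ i = 0 := fun h => by have := h20 h; omega
        exact ⟨by omega, by omega⟩
      convert key_3 _ _ _ _ k1 k2 k3
    have hs := sum_le_sum hle
    rw [sum_add_distrib] at hs
    have hr : ∑ i ∈ range N, (if 0 < i ∧ i < k then 1 else 0) ≤ k - 1 := by
      rw [← card_filter]
      have : (range N).filter (fun i => 0 < i ∧ i < k) ⊆ Ico 1 k := by
        intro i hi
        rw [mem_filter] at hi
        rw [mem_Ico]
        omega
      have h := card_le_card this
      rwa [Nat.card_Ico] at h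
    have h0 : (if XT k b J 0 then 1 else 0) + ((if 0 ∈ J then 1 else 0) +
        (if 1 ∈ J then 1 else 0)) ≤ 1 := by
      have hX0 : XT k b J 0 → ¬ (0 ∈ J ∨ 1 ∈ J) := by
        intro h
        rw [← hhit0]
        exact h.2.2
      convert key_2 _ _ _ hX0 h01
    omega
  · -- 8
    intro hJV hVV
    have hlt : J.card < (VC k b c).card := card_lt_card (hJ.ssubset_of_ne hJV)
    have hsum : (VC k b 0).card + (VC k b 1).card + (VC k b 2).card ≤ k + 2 := by
      have hd1 : Disjoint (VC k b 0) (VC k b 1) := by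
        rw [disjoint_left]
        intro v h1 h2
        simp only [VC, mem_filter] at h1 h2
        omega
      have hd2 : Disjoint (VC k b 0 ∪ VC k b 1) (VC k b 2) := by
        rw [disjoint_left]
        intro v h1 h2
        simp only [VC, mem_filter, mem_union] at h1 h2
        omega
      rw [← card_union_of_disjoint hd1, ← card_union_of_disjoint hd2]
      have : VC k b 0 ∪ VC k b 1 ∪ VC k b 2 ⊆ range (k + 2) := by
        intro v hv
        simp only [VC, mem_filter, mem_union] at hv
        tauto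
      have h := card_le_card this
      rwa [card_range] at h
    have h2 : 1 ≤ (VC k b 2).card := by
      apply Finset.card_pos.2
      refine ⟨2, ?_⟩
      simp only [VC, mem_filter, mem_range]
      exact ⟨by omega, hc2⟩
    have hcc : (VC k b c).card + (VC k b (1 - c)).card = (VC k b 0).card + (VC k b 1).card := by
      interval_cases c
      · rfl
      · rw [show 1 - 1 = 0 from rfl]; ring
    omega
  · -- 9
    intro e hE hh
    constructor
    · rintro ⟨-, h, -⟩
      omega
    · rintro ⟨h1, h2⟩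
      have hne := hcolne e
      have ha := hcol2 (ends b e).1
      have hb := hcol2 (ends b e).2
      refine ⟨?_, by omega, hh⟩
      rcases hE with h | ⟨i, ⟨hiN, hi⟩, h⟩
      · omega
      · rcases hi with hi | ⟨-, hi⟩
        · omega
        · exfalso
          have h3 := hcol3 i
          rcases h with h | h
          · rw [h, ends_odd] at h1
            simp only at h1
            omega
          · rw [h, ends_even] at h1
            simp only at h1
            omega

end MP_182bbb_co.TT.H14
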